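import Mathlib

set_option autoImplicit false
set_option linter.unusedSimpArgs false

namespace Pool.Agent.Results.MP_782c7c_an.TwoCircles

open Matrix
open scoped Kronecker

/-- `γ` is a representation of the Clifford relations by Hermitian matrices. -/
def IsClifford {d k : ℕ} (γ : Fin d → Matrix (Fin k) (Fin k) ℂ) : Prop :=
  0 < k ∧ (∀ j, (γ j).IsHermitian) ∧ (∀ j, γ j * γ j = 1) ∧
  (∀ j l, j ≠ l → γ j * γ l = -(γ l * γ j))

/-- The spectral localizer. -/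
def localizer {ι κ : Type*} [DecidableEq ι] {d : ℕ} (γ : Fin d → Matrix κ κ ℂ)
    (A : Fin d → Matrix ι ι ℂ) (lam : Fin d → ℝ) : Matrix (ι × κ) (ι × κ) ℂ :=
  ∑ j, (A j - (lam j : ℂ) • (1 : Matrix ι ι ℂ)) ⊗ₖ γ j

/-- The Clifford spectrum. -/
def cliffordSpectrum {ι κ : Type*} [DecidableEq ι] [Fintype ι] [Fintype κ] [DecidableEq κ] {d : ℕ}
    (γ : Fin d → Matrix κ κ ℂ) (A : Fin d → Matrix ι ι ℂ) : Set (Fin d → ℝ) :=
  {lam | ¬ IsUnit (localizer γ A lam)}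

/-- A one-manifold: a nonempty Hausdorff space in which every point has an open neighbourhood
homeomorphic to the real line. -/
def IsOneManifold (X : Type*) [TopologicalSpace X] : Prop :=
  Nonempty X ∧ T2Space X ∧ ∀ x : X, ∃ U : Set X, IsOpen U ∧ x ∈ U ∧ Nonempty (U ≃ₜ ℝ)

/-- The Pauli matrices. -/
noncomputable def pauli : Fin 3 → Matrix (Fin 2) (Fin 2) ℂ :=
  ![!![0, 1; 1, 0], !![0, -Complex.I; Complex.I, 0], !![1, 0; 0, -1]]

theorem pauli_clifford : IsClifford pauli := by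
  refine ⟨by norm_num, ?_, ?_, ?_⟩
  · intro j
    ext a b
    fin_cases j <;> fin_cases a <;> fin_cases b <;> simp [pauli, Matrix.conjTranspose_apply]
  · intro j
    ext a b
    fin_cases j <;> fin_cases a <;> fin_cases b <;> simp [pauli, Matrix.mul_apply]
  · intro j l hjl
    ext a b
    fin_cases j <;> fin_cases l <;> first
      | exact absurd rfl hjl
      | (fin_cases a <;> fin_cases b <;> simp [pauli, Matrix.mul_apply])

section general

variable {ι ι' κ : Type*} [DecidableEq ι] [Fintype ι] [DecidableEq ι'] [Fintype ι']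
  [Fintype κ] [DecidableEq κ] {d : ℕ}

theorem mem_spec (γ : Fin d → Matrix κ κ ℂ) (A : Fin d → Matrix ι ι ℂ) (lam : Fin d → ℝ) :
    lam ∈ cliffordSpectrum γ A ↔ (localizer γ A lam).det = 0 := by
  unfold cliffordSpectrum
  rw [Set.mem_ofPred_eq, Matrix.isUnit_iff_isUnit_det, isUnit_iff_ne_zero, not_not]

/-- Clifford spectrum of a direct sum -/
theorem spec_sum (γ : Fin d → Matrix κ κ ℂ) (A : Fin d → Matrix ι ι ℂ)
    (B : Fin d → Matrix ι' ι' ℂ) :
    cliffordSpectrum γ (fun j => Matrix.fromBlocks (A j) 0 0 (B j))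
      = cliffordSpectrum γ A ∪ cliffordSpectrum γ B := by
  ext lam
  rw [Set.mem_union, mem_spec, mem_spec, mem_spec]
  have h : (localizer γ (fun j => Matrix.fromBlocks (A j) 0 0 (B j)) lam).submatrix
      (Equiv.sumProdDistrib ι ι' κ).symm (Equiv.sumProdDistrib ι ι' κ).symm
      = Matrix.fromBlocks (localizer γ A lam) 0 0 (localizer γ B lam) := by
    ext p q
    rcases p with ⟨i, k⟩ | ⟨i, k⟩ <;> rcases q with ⟨j, l⟩ | ⟨j, l⟩ <;>
      simp [localizer, Matrix.sum_apply, Matrix.one_apply]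
  rw [← Matrix.det_submatrix_equiv_self (Equiv.sumProdDistrib ι ι' κ).symm, h,
    Matrix.det_fromBlocks_zero₂₁, mul_eq_zero]

theorem spec_reindex (γ : Fin d → Matrix κ κ ℂ) (A : Fin d → Matrix ι ι ℂ) (e : ι' ≃ ι) :
    cliffordSpectrum γ (fun j => (A j).submatrix e e) = cliffordSpectrum γ A := by
  ext lam
  rw [mem_spec, mem_spec]
  have h : localizer γ (fun j => (A j).submatrix e e) lam
      = (localizer γ A lam).submatrix (Equiv.prodCongr e (Equiv.refl κ))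
        (Equiv.prodCongr e (Equiv.refl κ)) := by
    ext p q
    simp [localizer, Matrix.sum_apply, Matrix.one_apply]
  rw [h, Matrix.det_submatrix_equiv_self]

end general

/-- unitary (up to scale) rotating the Pauli matrices cyclically -/
noncomputable def VV : Matrix (Fin 2) (Fin 2) ℂ := !![1, -Complex.I; 1, Complex.I]

/-- its inverse -/
noncomputable def WW : Matrix (Fin 2) (Fin 2) ℂ := !![1/2, 1/2; Complex.I/2, -Complex.I/2]

theorem VW : VV * WW = 1 := by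
  ext a b
  fin_cases a <;> fin_cases b <;> simp [VV, WW, Matrix.mul_apply] <;> ring_nf <;>
    simp [Complex.I_sq] <;> ring_nf

theorem rot0 : VV * pauli 2 * WW = pauli 0 := by
  ext a b
  fin_cases a <;> fin_cases b <;> simp [VV, WW, pauli, Matrix.mul_apply] <;> ring_nf <;>
    simp [Complex.I_sq] <;> ring_nf

theorem rot1 : VV * pauli 0 * WW = pauli 1 := by
  ext a b
  fin_cases a <;> fin_cases b <;> simp [VV, WW, pauli, Matrix.mul_apply] <;> ring_nf <;>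
    simp [Complex.I_sq] <;> ring_nf

theorem rot2 : VV * pauli 1 * WW = pauli 2 := by
  ext a b
  fin_cases a <;> fin_cases b <;> simp [VV, WW, pauli, Matrix.mul_apply] <;> ring_nf <;>
    simp [Complex.I_sq] <;> ring_nf

/-- rotated and shifted triple -/
theorem spec_rot {ι : Type*} [DecidableEq ι] [Fintype ι] (A : Fin 3 → Matrix ι ι ℂ) (a : ℝ)
    (lam : Fin 3 → ℝ) :
    lam ∈ cliffordSpectrum pauli ![A 2, A 0 + (a : ℂ) • 1, A 1] ↔
      ![lam 1 - a, lam 2, lam 0] ∈ cliffordSpectrum pauli A := by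
  rw [mem_spec, mem_spec]
  have h : localizer pauli ![A 2, A 0 + (a : ℂ) • 1, A 1] lam
      = ((1 : Matrix ι ι ℂ) ⊗ₖ VV) * localizer pauli A ![lam 1 - a, lam 2, lam 0]
        * ((1 : Matrix ι ι ℂ) ⊗ₖ WW) := by
    unfold localizer
    rw [Fin.sum_univ_three, Fin.sum_univ_three, mul_add, mul_add, add_mul, add_mul,
      ← mul_kronecker_mul, ← mul_kronecker_mul, ← mul_kronecker_mul, ← mul_kronecker_mul,
      ← mul_kronecker_mul, ← mul_kronecker_mul, rot0, rot1, rot2]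
    simp only [one_mul, mul_one]
    have e1 : (![A 2, A 0 + (a : ℂ) • 1, A 1] : Fin 3 → Matrix ι ι ℂ) 0 = A 2 := rfl
    have e2 : (![A 2, A 0 + (a : ℂ) • 1, A 1] : Fin 3 → Matrix ι ι ℂ) 1 = A 0 + (a : ℂ) • 1 := rfl
    have e3 : (![A 2, A 0 + (a : ℂ) • 1, A 1] : Fin 3 → Matrix ι ι ℂ) 2 = A 1 := rfl
    have f1 : (![lam 1 - a, lam 2, lam 0] : Fin 3 → ℝ) 0 = lam 1 - a := rfl
    have f2 : (![lam 1 - a, lam 2, lam 0] : Fin 3 → ℝ) 1 = lam 2 := rfl
    have f3 : (![lam 1 - a, lam 2, lam 0] : Fin 3 → ℝ) 2 = lam 0 := rfl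
    rw [e1, e2, e3, f1, f2, f3]
    have g1 : A 0 + (a : ℂ) • (1 : Matrix ι ι ℂ) - (lam 1 : ℂ) • 1
        = A 0 - ((lam 1 - a : ℝ) : ℂ) • 1 := by
      rw [Complex.ofReal_sub, sub_smul]
      abel
    rw [g1]
    abel
  have hdet : ((1 : Matrix ι ι ℂ) ⊗ₖ VV).det * ((1 : Matrix ι ι ℂ) ⊗ₖ WW).det = 1 := by
    rw [← Matrix.det_mul, ← mul_kronecker_mul, VW, one_mul, one_kronecker_one, Matrix.det_one]
  rw [h, Matrix.det_mul, Matrix.det_mul]
  constructor
  · intro h0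
    have : (localizer pauli A ![lam 1 - a, lam 2, lam 0]).det *
      (((1 : Matrix ι ι ℂ) ⊗ₖ VV).det * ((1 : Matrix ι ι ℂ) ⊗ₖ WW).det) = 0 := by
      linear_combination h0
    rwa [hdet, mul_one] at this
  · intro h0
    rw [h0]
    ring


/-- real part of the reduced equation -/
theorem real_part {Z r2 : ℝ} (hr : 0 ≤ r2)
    (hX : ((-Z)^2 + r2) * ((-5 - Z)^2 + r2) * ((10 - Z)^2 + r2)
      + 150 * (-Z) * ((-5 - Z) * ((10 - Z)^2 + r2) + 2 * (10 - Z) * ((-5 - Z)^2 + r2)) = 0)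
    (hY : r2 * (150 * (-Z) * (((10 - Z)^2 + r2) - 2 * ((-5 - Z)^2 + r2))) = 0)
    (hf : r2 ≠ 0 ∨ (Z ≠ -5 ∧ Z ≠ 10)) :
    (r2 = 0 ∧ Z = 0) ∨ (r2 = 9 ∧ Z = 1) := by
  by_cases h0 : r2 = 0
  · subst h0
    left
    refine ⟨rfl, ?_⟩
    have h1 : Z ≠ -5 ∧ Z ≠ 10 := by tauto
    have h2 : Z ^ 2 * (-5 - Z) * (10 - Z) * (Z ^ 2 - 5 * Z + 400) = 0 := by
      linear_combination hX
    have h3 : Z ^ 2 - 5 * Z + 400 ≠ 0 := by nlinarith [sq_nonneg (Z - 5/2)]
    have h4 : (-5 - Z) ≠ 0 := fun h => h1.1 (by linarith)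
    have h5 : (10 - Z) ≠ 0 := fun h => h1.2 (by linarith)
    have h6 : Z ^ 2 = 0 := by
      by_contra h
      exact absurd h2 (mul_ne_zero (mul_ne_zero (mul_ne_zero h h4) h5) h3)
    exact pow_eq_zero_iff two_ne_zero |>.mp h6
  · have hr' : 0 < r2 := lt_of_le_of_ne hr (Ne.symm h0)
    right
    have h1 : 150 * (-Z) * (((10 - Z)^2 + r2) - 2 * ((-5 - Z)^2 + r2)) = 0 :=
      (mul_eq_zero.mp hY).resolve_left h0
    have hDf : 0 < (-5 - Z)^2 + r2 := by positivity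
    have hDg : 0 < (10 - Z)^2 + r2 := by positivity
    rcases mul_eq_zero.mp h1 with h | h
    · have hZ : Z = 0 := by linarith
      subst hZ
      exfalso
      have : r2 * ((-5 - 0)^2 + r2) * ((10 - 0)^2 + r2) = 0 := by linear_combination hX
      have h3 : 0 < r2 * ((-5 - 0)^2 + r2) * ((10 - 0)^2 + r2) := by positivity
      linarith
    · have hr2 : r2 = 50 - 40 * Z - Z ^ 2 := by linear_combination -h
      have hDg' : (10 - Z)^2 + r2 = 2 * ((-5 - Z)^2 + r2) := by linarith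
      rw [hDg'] at hX
      have h3 : ((-5 - Z)^2 + r2) * (2 * (((-Z)^2 + r2) * ((-5 - Z)^2 + r2)
        + 150 * (-Z) * (5 - 2 * Z))) = 0 := by
        linear_combination hX
      have h4 := (mul_eq_zero.mp h3).resolve_left hDf.ne'
      rw [hr2] at h4 hDf
      have h5 : (5 - 2 * Z) * (1 - Z) = 0 := by linear_combination h4 / 1500
      have h6 : 5 - 2 * Z ≠ 0 := by
        intro h
        nlinarith
      have h7 : Z = 1 := by
        have := (mul_eq_zero.mp h5).resolve_left h6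
        linarith
      subst h7
      refine ⟨by rw [hr2]; norm_num, rfl⟩

/-- elimination -/
theorem elim (α β ξ ξ' Z : ℂ) (hα : α ^ 2 = 150) (hβ : β ^ 2 = 300)
    (u1 uf ug um v1 vf vg vm : ℂ)
    (e1 : -Z * u1 - ξ' * v1 = 0)
    (e2 : (-5 - Z) * uf + α * v1 - ξ' * vf = 0)
    (e3 : (10 - Z) * ug - β * v1 - ξ' * vg = 0)
    (e4 : -Z * um + α * vf + β * vg - ξ' * vm = 0)
    (e5 : α * uf - β * ug - ξ * u1 + Z * v1 = 0)
    (e6 : α * um - ξ * uf - (-5 - Z) * vf = 0)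
    (e7 : β * um - ξ * ug - (10 - Z) * vg = 0)
    (e8 : -ξ * um + Z * vm = 0) :
    (((-Z)^2 + ξ * ξ') * ((-5 - Z)^2 + ξ * ξ') * ((10 - Z)^2 + ξ * ξ')
      + 150 * (-Z) * ((-5 - Z) * ((10 - Z)^2 + ξ * ξ') + 2 * (10 - Z) * ((-5 - Z)^2 + ξ * ξ'))) * um
      + (150 * (-Z) * (((10 - Z)^2 + ξ * ξ') - 2 * ((-5 - Z)^2 + ξ * ξ'))) * ξ * v1 = 0 ∧
    (((-Z)^2 + ξ * ξ') * ((-5 - Z)^2 + ξ * ξ') * ((10 - Z)^2 + ξ * ξ')
      + 150 * (-Z) * ((-5 - Z) * ((10 - Z)^2 + ξ * ξ') + 2 * (10 - Z) * ((-5 - Z)^2 + ξ * ξ'))) * v1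
      - (150 * (-Z) * (((10 - Z)^2 + ξ * ξ') - 2 * ((-5 - Z)^2 + ξ * ξ'))) * ξ' * um = 0 := by
  have a1 : ((-5 - Z)^2 + ξ * ξ') * uf = -α * (-5 - Z) * v1 + α * ξ' * um := by
    linear_combination (-5 - Z) * e2 - ξ' * e6
  have a2 : ((-5 - Z)^2 + ξ * ξ') * vf = α * (-5 - Z) * um + α * ξ * v1 := by
    linear_combination -(-5 - Z) * e6 - ξ * e2
  have a3 : ((10 - Z)^2 + ξ * ξ') * ug = β * (10 - Z) * v1 + β * ξ' * um := by
    linear_combination (10 - Z) * e3 - ξ' * e7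
  have a4 : ((10 - Z)^2 + ξ * ξ') * vg = β * (10 - Z) * um - β * ξ * v1 := by
    linear_combination -(10 - Z) * e7 - ξ * e3
  have b1 : ((-Z)^2 + ξ * ξ') * um + (-Z) * (α * vf + β * vg) = 0 := by
    linear_combination (-Z) * e4 - ξ' * e8
  have b2 : ((-Z)^2 + ξ * ξ') * v1 - (-Z) * (α * uf - β * ug) = 0 := by
    linear_combination Z * e5 - ξ * e1
  constructor
  · linear_combination ((-5 - Z)^2 + ξ * ξ') * ((10 - Z)^2 + ξ * ξ') * b1
      + Z * α * ((10 - Z)^2 + ξ * ξ') * a2 + Z * β * ((-5 - Z)^2 + ξ * ξ') * a4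
      + (Z * ((10 - Z)^2 + ξ * ξ') * ((-5 - Z) * um + ξ * v1)) * hα
      + (Z * ((-5 - Z)^2 + ξ * ξ') * ((10 - Z) * um - ξ * v1)) * hβ
  · linear_combination ((-5 - Z)^2 + ξ * ξ') * ((10 - Z)^2 + ξ * ξ') * b2
      - Z * α * ((10 - Z)^2 + ξ * ξ') * a1 + Z * β * ((-5 - Z)^2 + ξ * ξ') * a3
      + (Z * ((10 - Z)^2 + ξ * ξ') * ((-5 - Z) * v1 - ξ' * um)) * hα
      + (Z * ((-5 - Z)^2 + ξ * ξ') * ((10 - Z) * v1 + ξ' * um)) * hβ

theorem two_zero {X Y r2 : ℝ} (hr : 0 ≤ r2) (h : X ^ 2 + Y ^ 2 * r2 = 0) :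
    X = 0 ∧ r2 * Y = 0 := by
  have h1 := sq_nonneg X
  have h2 : 0 ≤ Y ^ 2 * r2 := mul_nonneg (sq_nonneg Y) hr
  have hX0 : X ^ 2 = 0 := by linarith
  have hY0 : Y ^ 2 * r2 = 0 := by linarith
  refine ⟨pow_eq_zero_iff two_ne_zero |>.mp hX0, ?_⟩
  rcases mul_eq_zero.mp hY0 with h | h
  · rw [pow_eq_zero_iff two_ne_zero |>.mp h, mul_zero]
  · rw [h, zero_mul]

theorem sq_zero {x y : ℝ} (h : x ^ 2 + y ^ 2 = 0) : x = 0 ∧ y = 0 := by
  have h1 := sq_nonneg x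
  have h2 := sq_nonneg y
  have hx : x ^ 2 = 0 := by linarith
  have hy : y ^ 2 = 0 := by linarith
  exact ⟨pow_eq_zero_iff two_ne_zero |>.mp hx, pow_eq_zero_iff two_ne_zero |>.mp hy⟩

theorem lin_sys {X Y r2 : ℝ} {ξ ξ' um v1 : ℂ} (hxi : ξ * ξ' = (r2 : ℂ)) (hr : 0 ≤ r2)
    (hne : ¬ (X = 0 ∧ r2 * Y = 0))
    (g1 : (X : ℂ) * um + Y * ξ * v1 = 0) (g2 : (X : ℂ) * v1 - Y * ξ' * um = 0) :
    um = 0 ∧ v1 = 0 := by
  have hc : ((X ^ 2 + Y ^ 2 * r2 : ℝ) : ℂ) ≠ 0 := by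
    intro h
    exact hne (two_zero hr (by exact_mod_cast h))
  constructor
  · have : ((X ^ 2 + Y ^ 2 * r2 : ℝ) : ℂ) * um = 0 := by
      push_cast
      linear_combination (X : ℂ) * g1 - Y * ξ * g2 - (Y : ℂ) ^ 2 * um * hxi
    exact (mul_eq_zero.mp this).resolve_left hc
  · have : ((X ^ 2 + Y ^ 2 * r2 : ℝ) : ℂ) * v1 = 0 := by
      push_cast
      linear_combination (X : ℂ) * g2 + Y * ξ' * g1 - (Y : ℂ) ^ 2 * v1 * hxi
    exact (mul_eq_zero.mp this).resolve_left hc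

theorem two_by_two {n ξ ξ' : ℂ} {D : ℝ} (hD : n ^ 2 + ξ * ξ' = (D : ℂ)) (hD0 : D ≠ 0) {p q : ℂ}
    (h1 : n * p - ξ' * q = 0) (h2 : ξ * p + n * q = 0) : p = 0 ∧ q = 0 := by
  have hc : (D : ℂ) ≠ 0 := by exact_mod_cast hD0
  constructor
  · have : (D : ℂ) * p = 0 := by linear_combination n * h1 + ξ' * h2 - p * hD
    exact (mul_eq_zero.mp this).resolve_left hc
  · have : (D : ℂ) * q = 0 := by linear_combination n * h2 - ξ * h1 - q * hD
    exact (mul_eq_zero.mp this).resolve_left hc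

/-- trivial kernel off the exceptional set, first step -/
theorem ker1 (α β : ℂ) (x y Z : ℝ) (hα : α ^ 2 = 150) (hβ : β ^ 2 = 300)
    (h1 : ¬ (x = 0 ∧ y = 0 ∧ Z = 0)) (h2 : ¬ (x ^ 2 + y ^ 2 = 9 ∧ Z = 1))
    (ξ ξ' : ℂ) (hxi : ξ * ξ' = ((x ^ 2 + y ^ 2 : ℝ) : ℂ))
    (hx0 : x = 0 → y = 0 → ξ = 0 ∧ ξ' = 0)
    (u1 uf ug um v1 vf vg vm : ℂ)
    (e1 : -(Z : ℂ) * u1 - ξ' * v1 = 0)
    (e2 : (-5 - (Z : ℂ)) * uf + α * v1 - ξ' * vf = 0)
    (e3 : (10 - (Z : ℂ)) * ug - β * v1 - ξ' * vg = 0)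
    (e4 : -(Z : ℂ) * um + α * vf + β * vg - ξ' * vm = 0)
    (e5 : α * uf - β * ug - ξ * u1 + (Z : ℂ) * v1 = 0)
    (e6 : α * um - ξ * uf - (-5 - (Z : ℂ)) * vf = 0)
    (e7 : β * um - ξ * ug - (10 - (Z : ℂ)) * vg = 0)
    (e8 : -ξ * um + (Z : ℂ) * vm = 0) :
    um = 0 ∧ v1 = 0 := by
  have hα0 : α ≠ 0 := by rintro rfl; norm_num at hα
  have hβ0 : β ≠ 0 := by rintro rfl; norm_num at hβ
  obtain ⟨r2, hr2⟩ : ∃ r2 : ℝ, r2 = x ^ 2 + y ^ 2 := ⟨_, rfl⟩
  have hr0 : 0 ≤ r2 := by rw [hr2]; positivity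
  rw [← hr2] at hxi h2
  obtain ⟨f1, f2⟩ := elim α β ξ ξ' Z hα hβ
    u1 uf ug um v1 vf vg vm e1 e2 e3 e4 e5 e6 e7 e8
  rw [hxi] at f1 f2
  by_cases hf : r2 ≠ 0 ∨ (Z ≠ -5 ∧ Z ≠ 10)
  · apply lin_sys (X := ((-Z)^2 + r2) * ((-5 - Z)^2 + r2) * ((10 - Z)^2 + r2)
      + 150 * (-Z) * ((-5 - Z) * ((10 - Z)^2 + r2) + 2 * (10 - Z) * ((-5 - Z)^2 + r2)))
      (Y := 150 * (-Z) * (((10 - Z)^2 + r2) - 2 * ((-5 - Z)^2 + r2))) hxi hr0
    · rintro ⟨hX, hY⟩
      rcases real_part hr0 hX hY hf with ⟨ha, hb⟩ | ⟨ha, hb⟩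
      · rw [ha] at hr2
        obtain ⟨hx, hy⟩ := sq_zero hr2.symm
        exact h1 ⟨hx, hy, hb⟩
      · exact h2 ⟨ha, hb⟩
    · push_cast
      linear_combination f1
    · push_cast
      linear_combination f2
  · push Not at hf
    obtain ⟨hr, hZ⟩ := hf
    rw [hr] at hr2
    obtain ⟨hx, hy⟩ := sq_zero hr2.symm
    obtain ⟨hξ, hξ'⟩ := hx0 hx hy
    by_cases hZ5 : Z = -5
    · rw [hZ5] at e2 e6
      push_cast at e2 e6
      constructor
      · have : α * um = 0 := by linear_combination e6 + uf * hξ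
        exact (mul_eq_zero.mp this).resolve_left hα0
      · have : α * v1 = 0 := by linear_combination e2 + vf * hξ'
        exact (mul_eq_zero.mp this).resolve_left hα0
    · rw [hZ hZ5] at e3 e7
      push_cast at e3 e7
      constructor
      · have : β * um = 0 := by linear_combination e7 + ug * hξ
        exact (mul_eq_zero.mp this).resolve_left hβ0
      · have : β * v1 = 0 := by linear_combination -e3 - vg * hξ'
        exact (mul_eq_zero.mp this).resolve_left hβ0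

/-- trivial kernel off the exceptional set -/
theorem ker (α β : ℂ) (x y Z : ℝ) (hα : α ^ 2 = 150) (hβ : β ^ 2 = 300)
    (h1 : ¬ (x = 0 ∧ y = 0 ∧ Z = 0)) (h2 : ¬ (x ^ 2 + y ^ 2 = 9 ∧ Z = 1))
    (ξ ξ' : ℂ) (hxi : ξ * ξ' = ((x ^ 2 + y ^ 2 : ℝ) : ℂ))
    (hx0 : x = 0 → y = 0 → ξ = 0 ∧ ξ' = 0)
    (u1 uf ug um v1 vf vg vm : ℂ)
    (e1 : -(Z : ℂ) * u1 - ξ' * v1 = 0)
    (e2 : (-5 - (Z : ℂ)) * uf + α * v1 - ξ' * vf = 0)
    (e3 : (10 - (Z : ℂ)) * ug - β * v1 - ξ' * vg = 0)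
    (e4 : -(Z : ℂ) * um + α * vf + β * vg - ξ' * vm = 0)
    (e5 : α * uf - β * ug - ξ * u1 + (Z : ℂ) * v1 = 0)
    (e6 : α * um - ξ * uf - (-5 - (Z : ℂ)) * vf = 0)
    (e7 : β * um - ξ * ug - (10 - (Z : ℂ)) * vg = 0)
    (e8 : -ξ * um + (Z : ℂ) * vm = 0) :
    u1 = 0 ∧ uf = 0 ∧ ug = 0 ∧ um = 0 ∧ v1 = 0 ∧ vf = 0 ∧ vg = 0 ∧ vm = 0 := by
  have hα0 : α ≠ 0 := by rintro rfl; norm_num at hα
  have hβ0 : β ≠ 0 := by rintro rfl; norm_num at hβ
  obtain ⟨hum, hv1⟩ := ker1 α β x y Z hα hβ h1 h2 ξ ξ' hxi hx0 u1 uf ug um v1 vf vg vm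
    e1 e2 e3 e4 e5 e6 e7 e8
  have cf : ((-5 - Z) ^ 2 + (x ^ 2 + y ^ 2) ≠ 0) → uf = 0 ∧ vf = 0 := by
    intro hD
    apply two_by_two (n := -5 - (Z : ℂ)) (ξ := ξ) (ξ' := ξ')
      (D := (-5 - Z) ^ 2 + (x ^ 2 + y ^ 2)) _ hD
    · linear_combination e2 - α * hv1
    · linear_combination α * hum - e6
    · rw [hxi]; push_cast; ring
  have cg : ((10 - Z) ^ 2 + (x ^ 2 + y ^ 2) ≠ 0) → ug = 0 ∧ vg = 0 := by
    intro hD
    apply two_by_two (n := 10 - (Z : ℂ)) (ξ := ξ) (ξ' := ξ')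
      (D := (10 - Z) ^ 2 + (x ^ 2 + y ^ 2)) _ hD
    · linear_combination e3 + β * hv1
    · linear_combination β * hum - e7
    · rw [hxi]; push_cast; ring
  by_cases hZ : Z = 0
  · subst hZ
    obtain ⟨huf, hvf⟩ := cf (by positivity)
    obtain ⟨hug, hvg⟩ := cg (by positivity)
    have hr : x ^ 2 + y ^ 2 ≠ 0 := by
      intro h
      obtain ⟨hx, hy⟩ := sq_zero h
      exact h1 ⟨hx, hy, rfl⟩
    have hne : ξ * ξ' ≠ 0 := by
      rw [hxi]; exact_mod_cast hr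
    have hξ : ξ ≠ 0 := left_ne_zero_of_mul hne
    have hξ' : ξ' ≠ 0 := right_ne_zero_of_mul hne
    have hu1 : ξ * u1 = 0 := by
      push_cast at e5
      linear_combination -e5 + α * huf - β * hug
    have hvm : ξ' * vm = 0 := by
      push_cast at e4
      linear_combination -e4 + α * hvf + β * hvg
    exact ⟨(mul_eq_zero.mp hu1).resolve_left hξ, huf, hug, hum, hv1, hvf, hvg,
      (mul_eq_zero.mp hvm).resolve_left hξ'⟩
  · have hZc : (Z : ℂ) ≠ 0 := by exact_mod_cast hZ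
    have hu1' : (Z : ℂ) * u1 = 0 := by linear_combination -e1 - ξ' * hv1
    have hvm' : (Z : ℂ) * vm = 0 := by linear_combination e8 + ξ * hum
    have hu1 := (mul_eq_zero.mp hu1').resolve_left hZc
    have hvm := (mul_eq_zero.mp hvm').resolve_left hZc
    have k4 : α * vf + β * vg = 0 := by
      linear_combination e4 + (Z : ℂ) * hum + ξ' * hvm
    have k5 : α * uf - β * ug = 0 := by
      linear_combination e5 + ξ * hu1 - (Z : ℂ) * hv1
    by_cases hDf : (-5 - Z) ^ 2 + (x ^ 2 + y ^ 2) = 0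
    · have hDg : (10 - Z) ^ 2 + (x ^ 2 + y ^ 2) ≠ 0 := by
        intro h
        nlinarith [sq_nonneg x, sq_nonneg y]
      obtain ⟨hug, hvg⟩ := cg hDg
      have a1 : α * vf = 0 := by linear_combination k4 - β * hvg
      have a2 : α * uf = 0 := by linear_combination k5 + β * hug
      exact ⟨hu1, (mul_eq_zero.mp a2).resolve_left hα0, hug, hum, hv1,
        (mul_eq_zero.mp a1).resolve_left hα0, hvg, hvm⟩
    · obtain ⟨huf, hvf⟩ := cf hDf
      have a1 : β * vg = 0 := by linear_combination k4 - α * hvf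
      have a2 : β * ug = 0 := by linear_combination -k5 + α * huf
      exact ⟨hu1, huf, (mul_eq_zero.mp a2).resolve_left hβ0, hum, hv1, hvf,
        (mul_eq_zero.mp a1).resolve_left hβ0, hvm⟩


theorem p0 : (pauli 0 0 0 = 0 ∧ pauli 0 0 1 = 1) ∧ (pauli 0 1 0 = 1 ∧ pauli 0 1 1 = 0) := by
  simp [pauli]

theorem p1 : (pauli 1 0 0 = 0 ∧ pauli 1 0 1 = -Complex.I) ∧
    (pauli 1 1 0 = Complex.I ∧ pauli 1 1 1 = 0) := by
  simp [pauli]

theorem p2 : (pauli 2 0 0 = 1 ∧ pauli 2 0 1 = 0) ∧ (pauli 2 1 0 = 0 ∧ pauli 2 1 1 = -1) := by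
  simp [pauli]

theorem loc_mulVec0 {ι : Type*} [DecidableEq ι] [Fintype ι] (A : Fin 3 → Matrix ι ι ℂ)
    (lam : Fin 3 → ℝ) (w : ι × Fin 2 → ℂ) (i : ι) :
    (localizer pauli A lam *ᵥ w) (i, 0) = ∑ k, ((A 2 i k - lam 2 * (1 : Matrix ι ι ℂ) i k) * w (k, 0)
      + ((A 0 i k - lam 0 * (1 : Matrix ι ι ℂ) i k)
        - Complex.I * (A 1 i k - lam 1 * (1 : Matrix ι ι ℂ) i k)) * w (k, 1)) := by
  rw [Matrix.mulVec, dotProduct, Fintype.sum_prod_type]
  refine Finset.sum_congr rfl fun k _ => ?_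
  simp only [localizer, Fin.sum_univ_three, Fin.sum_univ_two, Matrix.add_apply,
    Matrix.kroneckerMap_apply, Matrix.sub_apply, Matrix.smul_apply, smul_eq_mul, p0, p1, p2]
  ring

theorem loc_mulVec1 {ι : Type*} [DecidableEq ι] [Fintype ι] (A : Fin 3 → Matrix ι ι ℂ)
    (lam : Fin 3 → ℝ) (w : ι × Fin 2 → ℂ) (i : ι) :
    (localizer pauli A lam *ᵥ w) (i, 1) = ∑ k, (((A 0 i k - lam 0 * (1 : Matrix ι ι ℂ) i k)
        + Complex.I * (A 1 i k - lam 1 * (1 : Matrix ι ι ℂ) i k)) * w (k, 0)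
        - (A 2 i k - lam 2 * (1 : Matrix ι ι ℂ) i k) * w (k, 1)) := by
  rw [Matrix.mulVec, dotProduct, Fintype.sum_prod_type]
  refine Finset.sum_congr rfl fun k _ => ?_
  simp only [localizer, Fin.sum_univ_three, Fin.sum_univ_two, Matrix.add_apply,
    Matrix.kroneckerMap_apply, Matrix.sub_apply, Matrix.smul_apply, smul_eq_mul, p0, p1, p2]
  ring

/-- The basic triple of `4 × 4` matrices. -/
noncomputable def A4 (α β : ℂ) : Fin 3 → Matrix (Fin 4) (Fin 4) ℂ :=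
  ![!![0, α/2, -β/2, 0; α/2, 0, 0, α/2; -β/2, 0, 0, β/2; 0, α/2, β/2, 0],
    !![0, -α/2*Complex.I, β/2*Complex.I, 0; α/2*Complex.I, 0, 0, -α/2*Complex.I;
      -β/2*Complex.I, 0, 0, -β/2*Complex.I; 0, α/2*Complex.I, β/2*Complex.I, 0],
    !![-1, 0, 0, 0; 0, -6, 0, 0; 0, 0, 9, 0; 0, 0, 0, -1]]

theorem rows (α β : ℂ) (lam : Fin 3 → ℝ) (w : Fin 4 × Fin 2 → ℂ) (ξ ξ' Z : ℂ)
    (hξ : ξ = lam 0 + lam 1 * Complex.I) (hξ' : ξ' = lam 0 - lam 1 * Complex.I)
    (hZ : Z = lam 2 + 1) :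
    (localizer pauli (A4 α β) lam *ᵥ w) (0, 0) = -Z * w (0, 0) - ξ' * w (0, 1) ∧
    (localizer pauli (A4 α β) lam *ᵥ w) (1, 0) = (-5 - Z) * w (1, 0) + α * w (0, 1) - ξ' * w (1, 1) ∧
    (localizer pauli (A4 α β) lam *ᵥ w) (2, 0) = (10 - Z) * w (2, 0) - β * w (0, 1) - ξ' * w (2, 1) ∧
    (localizer pauli (A4 α β) lam *ᵥ w) (3, 0) = -Z * w (3, 0) + α * w (1, 1) + β * w (2, 1)
      - ξ' * w (3, 1) ∧
    (localizer pauli (A4 α β) lam *ᵥ w) (0, 1) = α * w (1, 0) - β * w (2, 0) - ξ * w (0, 0)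
      + Z * w (0, 1) ∧
    (localizer pauli (A4 α β) lam *ᵥ w) (1, 1) = α * w (3, 0) - ξ * w (1, 0) - (-5 - Z) * w (1, 1) ∧
    (localizer pauli (A4 α β) lam *ᵥ w) (2, 1) = β * w (3, 0) - ξ * w (2, 0) - (10 - Z) * w (2, 1) ∧
    (localizer pauli (A4 α β) lam *ᵥ w) (3, 1) = -ξ * w (3, 0) + Z * w (3, 1) := by
  have hI : Complex.I * Complex.I = -1 := Complex.I_mul_I
  rw [hξ, hξ', hZ]
  refine ⟨?_, ?_, ?_, ?_, ?_, ?_, ?_, ?_⟩
  · rw [loc_mulVec0]
    simp [Fin.sum_univ_four, A4, Matrix.one_apply]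
    linear_combination ((α/2 * w (1,1)) - β / 2 * w (2, 1)) * hI
  · rw [loc_mulVec0]
    simp [Fin.sum_univ_four, A4, Matrix.one_apply]
    linear_combination (-(α/2 * w (0,1)) + α / 2 * w (3, 1)) * hI
  · rw [loc_mulVec0]
    simp [Fin.sum_univ_four, A4, Matrix.one_apply]
    linear_combination ((β/2 * w (0,1)) + β / 2 * w (3, 1)) * hI
  · rw [loc_mulVec0]
    simp [Fin.sum_univ_four, A4, Matrix.one_apply]
    linear_combination (-(α/2 * w (1,1)) - β / 2 * w (2, 1)) * hI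
  · rw [loc_mulVec1]
    simp [Fin.sum_univ_four, A4, Matrix.one_apply]
    linear_combination (-(α/2 * w (1,0)) + β / 2 * w (2, 0)) * hI
  · rw [loc_mulVec1]
    simp [Fin.sum_univ_four, A4, Matrix.one_apply]
    linear_combination ((α/2 * w (0,0)) - α / 2 * w (3, 0)) * hI
  · rw [loc_mulVec1]
    simp [Fin.sum_univ_four, A4, Matrix.one_apply]
    linear_combination (-(β/2 * w (0,0)) - β / 2 * w (3, 0)) * hI
  · rw [loc_mulVec1]
    simp [Fin.sum_univ_four, A4, Matrix.one_apply]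
    linear_combination ((α/2 * w (1,0)) + β / 2 * w (2, 0)) * hI

/-- Clifford spectrum of the basic triple: a circle and a point. -/
theorem spec_A4 (α β : ℂ) (hα : α ^ 2 = 150) (hβ : β ^ 2 = 300) (lam : Fin 3 → ℝ) :
    lam ∈ cliffordSpectrum pauli (A4 α β) ↔
      (lam 0 = 0 ∧ lam 1 = 0 ∧ lam 2 = -1) ∨ (lam 0 ^ 2 + lam 1 ^ 2 = 9 ∧ lam 2 = 0) := by
  rw [mem_spec]
  have hxi : ((lam 0 : ℂ) + lam 1 * Complex.I) * (lam 0 - lam 1 * Complex.I)
      = ((lam 0 ^ 2 + lam 1 ^ 2 : ℝ) : ℂ) := by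
    push_cast
    linear_combination (-(lam 1 : ℂ) ^ 2) * Complex.I_sq
  constructor
  · intro h
    by_contra hcon
    push Not at hcon
    obtain ⟨w, hw0, hw⟩ := Matrix.exists_mulVec_eq_zero_iff.mpr h
    apply hw0
    obtain ⟨r1, r2, r3, r4, r5, r6, r7, r8⟩ := rows α β lam w _ _ ((lam 2 + 1 : ℝ) : ℂ) rfl rfl
      (by push_cast; ring)
    rw [hw] at r1 r2 r3 r4 r5 r6 r7 r8
    obtain ⟨k1, k2, k3, k4, k5, k6, k7, k8⟩ := ker α β (lam 0) (lam 1) (lam 2 + 1) hα hβ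
      (fun ⟨a, b, c⟩ => hcon.1 a b (by linarith)) (fun ⟨a, b⟩ => hcon.2 a (by linarith))
      _ _ hxi (fun a b => by rw [a, b]; simp)
      (w (0, 0)) (w (1, 0)) (w (2, 0)) (w (3, 0)) (w (0, 1)) (w (1, 1)) (w (2, 1)) (w (3, 1))
      r1.symm r2.symm r3.symm r4.symm r5.symm r6.symm r7.symm r8.symm
    funext ⟨i, s⟩
    fin_cases i <;> fin_cases s
    · exact k1
    · exact k5
    · exact k2
    · exact k6
    · exact k3
    · exact k7
    · exact k4
    · exact k8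
  · rintro (⟨h0, h1, h2⟩ | ⟨h0, h2⟩)
    · apply Matrix.exists_mulVec_eq_zero_iff.mp
      refine ⟨fun p => if p = (0, 0) then 1 else 0, ?_, ?_⟩
      · intro h
        have := congrFun h (0, 0)
        simp at this
      · obtain ⟨r1, r2, r3, r4, r5, r6, r7, r8⟩ := rows α β lam
          (fun p => if p = (0, 0) then 1 else 0) 0 0 0 (by rw [h0, h1]; simp)
          (by rw [h0, h1]; simp) (by rw [h2]; simp)
        funext ⟨i, s⟩
        fin_cases i <;> fin_cases s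
        · exact r1.trans (by simp)
        · exact r5.trans (by simp)
        · exact r2.trans (by simp)
        · exact r6.trans (by simp)
        · exact r3.trans (by simp)
        · exact r7.trans (by simp)
        · exact r4.trans (by simp)
        · exact r8.trans (by simp)
    · apply Matrix.exists_mulVec_eq_zero_iff.mp
      rw [h0] at hxi
      push_cast at hxi
      obtain ⟨ξ, hξ⟩ : ∃ ξ : ℂ, ξ = (lam 0 : ℂ) + lam 1 * Complex.I := ⟨_, rfl⟩
      obtain ⟨ξ', hξ'⟩ : ∃ ξ : ℂ, ξ = (lam 0 : ℂ) - lam 1 * Complex.I := ⟨_, rfl⟩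
      rw [← hξ, ← hξ'] at hxi
      refine ⟨fun p => (![![-ξ', 1], ![2 * α / 15, α * ξ / 45], ![β / 10, -ξ * β / 90],
        ![0, 0]] : Fin 4 → Fin 2 → ℂ) p.1 p.2, ?_, ?_⟩
      · intro h
        have := congrFun h (0, 1)
        simp at this
      · obtain ⟨r1, r2, r3, r4, r5, r6, r7, r8⟩ := rows α β lam
          (fun p => (![![-ξ', 1], ![2 * α / 15, α * ξ / 45], ![β / 10, -ξ * β / 90],
            ![0, 0]] : Fin 4 → Fin 2 → ℂ) p.1 p.2) ξ ξ' 1 hξ
          hξ' (by rw [h2]; simp)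
        funext ⟨i, s⟩
        fin_cases i <;> fin_cases s
        · exact r1.trans (by simp)
        · refine r5.trans ?_
          simp
          linear_combination (2 / 15 : ℂ) * hα - (1 / 10 : ℂ) * hβ + hxi
        · refine r2.trans ?_
          simp
          linear_combination (-α / 45) * hxi
        · refine r6.trans ?_
          simp
          ring
        · refine r3.trans ?_
          simp
          linear_combination (β / 90) * hxi
        · refine r7.trans ?_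
          simp
          ring
        · refine r4.trans ?_
          simp
          linear_combination (ξ / 45) * hα - (ξ / 90) * hβ
        · exact r8.trans (by simp)


theorem circle_nhd (Λ D : Set (Fin 3 → ℝ)) (j : ℝ × ℝ → (Fin 3 → ℝ)) (π : (Fin 3 → ℝ) → ℝ × ℝ)
    (hj : Continuous j) (hπ : Continuous π) (hπj : ∀ c, π (j c) = c) (hD : IsClosed D)
    (hΛ : ∀ v, v ∈ Λ ↔ (∃ c : ℝ × ℝ, c.1 ^ 2 + c.2 ^ 2 = 9 ∧ j c = v) ∨ v ∈ D)
    (hdisj : ∀ c : ℝ × ℝ, c.1 ^ 2 + c.2 ^ 2 = 9 → j c ∉ D) (x : Λ)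
    (hx : ∃ c : ℝ × ℝ, c.1 ^ 2 + c.2 ^ 2 = 9 ∧ j c = x.1) :
    ∃ U : Set Λ, IsOpen U ∧ x ∈ U ∧ Nonempty (U ≃ₜ ℝ) := by
  obtain ⟨c, hc, hcx⟩ := hx
  obtain ⟨ε, hε, hεc⟩ : ∃ ε : ℝ, ε ^ 2 = 1 ∧ 3 + ε * c.1 ≠ 0 := by
    by_cases h : c.1 = -3
    · exact ⟨-1, by norm_num, by rw [h]; norm_num⟩
    · exact ⟨1, by norm_num, fun h' => h (by linarith)⟩
  have hne : ∀ t : ℝ, 1 + t ^ 2 ≠ 0 := fun t => by positivity
  set f : ℝ → ℝ × ℝ := fun t => (3 * ε * (1 - t ^ 2) / (1 + t ^ 2), 6 * t / (1 + t ^ 2)) with hf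
  have hf1 : ∀ t, (f t).1 ^ 2 + (f t).2 ^ 2 = 9 := by
    intro t
    have h := hne t
    simp only [hf]
    field_simp
    linear_combination (9 * (1 - t ^ 2) ^ 2) * hε
  have hf2 : ∀ t, 3 + ε * (f t).1 = 6 / (1 + t ^ 2) := by
    intro t
    have h := hne t
    simp only [hf]
    field_simp
    linear_combination (3 * (1 - t ^ 2)) * hε
  have hfc : Continuous f := by
    simp only [hf]
    refine Continuous.prodMk ?_ ?_
    · exact Continuous.div (by fun_prop) (by fun_prop) hne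
    · exact Continuous.div (by fun_prop) (by fun_prop) hne
  have hfg : ∀ c' : ℝ × ℝ, c'.1 ^ 2 + c'.2 ^ 2 = 9 → 3 + ε * c'.1 ≠ 0 →
      f (c'.2 / (3 + ε * c'.1)) = c' := by
    intro c' hc' h
    have e1 : 1 + (c'.2 / (3 + ε * c'.1)) ^ 2 = 6 / (3 + ε * c'.1) := by
      field_simp
      linear_combination hc' + c'.1 ^ 2 * hε
    have e2 : 1 - (c'.2 / (3 + ε * c'.1)) ^ 2 = 2 * ε * c'.1 / (3 + ε * c'.1) := by
      field_simp
      linear_combination -hc' - c'.1 ^ 2 * hε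
    simp only [hf]
    rw [e1, e2]
    ext
    · field_simp
      linear_combination (6 * c'.1) * hε
    · field_simp
  refine ⟨{v : Λ | v.1 ∉ D ∧ 3 + ε * (π v.1).1 ≠ 0}, ?_, ?_, ?_⟩
  · apply IsOpen.inter
    · exact hD.isOpen_compl.preimage continuous_subtype_val
    · have : Continuous (fun v : Λ => 3 + ε * (π v.1).1) := by fun_prop
      exact isOpen_compl_singleton.preimage this
  · refine ⟨?_, ?_⟩
    · rw [← hcx]; exact hdisj c hc
    · rw [← hcx, hπj]; exact hεc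
  · refine ⟨{ toFun := fun u => (π u.1.1).2 / (3 + ε * (π u.1.1).1)
              invFun := fun t => ⟨⟨j (f t), (hΛ _).mpr (Or.inl ⟨f t, hf1 t, rfl⟩)⟩,
                ⟨hdisj _ (hf1 t), by
                  simp only [hπj, hf2]
                  have := hne t
                  positivity⟩⟩
              left_inv := ?_
              right_inv := ?_
              continuous_toFun := ?_
              continuous_invFun := ?_ }⟩
    · rintro ⟨⟨v, hv⟩, hv1, hv2⟩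
      rcases (hΛ v).mp hv with ⟨c', hc', rfl⟩ | h
      · simp only [hπj] at hv2 ⊢
        apply Subtype.ext
        apply Subtype.ext
        simp only
        rw [hfg c' hc' hv2]
      · exact absurd h hv1
    · intro t
      simp only [hπj]
      rw [hf2]
      have := hne t
      simp only [hf]
      field_simp
    · apply Continuous.div
      · fun_prop
      · fun_prop
      · intro u
        exact u.2.2
    · apply Continuous.subtype_mk
      apply Continuous.subtype_mk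
      exact hj.comp hfc

/-- the union of two disjoint circles is a one-manifold -/
theorem two_circles_manifold (a : ℝ) (Λ : Set (Fin 3 → ℝ))
    (hΛ : ∀ v, v ∈ Λ ↔ (v 0 ^ 2 + v 1 ^ 2 = 9 ∧ v 2 = 0) ∨ ((v 1 - a) ^ 2 + v 2 ^ 2 = 9 ∧ v 0 = 0))
    (ha : a ^ 2 = 8) : IsOneManifold Λ := by
  refine ⟨⟨⟨![3, 0, 0], (hΛ _).mpr (Or.inl ?_)⟩⟩, inferInstance, ?_⟩
  · simp
    norm_num
  have hdis : ∀ v : Fin 3 → ℝ, (v 0 ^ 2 + v 1 ^ 2 = 9 ∧ v 2 = 0) →
      ((v 1 - a) ^ 2 + v 2 ^ 2 = 9 ∧ v 0 = 0) → False := by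
    rintro v ⟨h1, h2⟩ ⟨h3, h4⟩
    rw [h4] at h1
    rw [h2] at h3
    have h5 : a * (a - 2 * v 1) = 0 := by linear_combination h3 - h1
    rcases mul_eq_zero.mp h5 with h | h
    · rw [h] at ha; norm_num at ha
    · have : v 1 = a / 2 := by linarith
      rw [this] at h1
      nlinarith
  intro x
  rcases (hΛ x.1).mp x.2 with hx | hx
  · apply circle_nhd Λ {v | (v 1 - a) ^ 2 + v 2 ^ 2 = 9 ∧ v 0 = 0}
      (fun c => ![c.1, c.2, 0]) (fun v => (v 0, v 1))
    · refine continuous_pi fun i => ?_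
      fin_cases i
      · exact continuous_fst
      · exact continuous_snd
      · exact continuous_const
    · fun_prop
    · intro c; rfl
    · apply IsClosed.inter
      · exact isClosed_eq (by fun_prop) continuous_const
      · exact isClosed_eq (by fun_prop) continuous_const
    · intro v
      rw [hΛ v]
      apply or_congr_left
      constructor
      · rintro ⟨h1, h2⟩
        refine ⟨(v 0, v 1), h1, ?_⟩
        funext i
        fin_cases i
        · rfl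
        · rfl
        · exact h2.symm
      · rintro ⟨c, h1, rfl⟩
        exact ⟨h1, rfl⟩
    · intro c hc h
      exact hdis _ ⟨hc, rfl⟩ h
    · refine ⟨(x.1 0, x.1 1), hx.1, ?_⟩
      funext i
      fin_cases i
      · rfl
      · rfl
      · exact hx.2.symm
  · apply circle_nhd Λ {v | v 0 ^ 2 + v 1 ^ 2 = 9 ∧ v 2 = 0}
      (fun c => ![0, c.1 + a, c.2]) (fun v => (v 1 - a, v 2))
    · refine continuous_pi fun i => ?_
      fin_cases i
      · exact continuous_const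
      · exact continuous_fst.add continuous_const
      · exact continuous_snd
    · fun_prop
    · intro c
      ext
      · simp
      · simp
    · apply IsClosed.inter
      · exact isClosed_eq (by fun_prop) continuous_const
      · exact isClosed_eq (by fun_prop) continuous_const
    · intro v
      rw [hΛ v, or_comm]
      apply or_congr_left
      constructor
      · rintro ⟨h1, h2⟩
        refine ⟨(v 1 - a, v 2), h1, ?_⟩
        funext i
        fin_cases i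
        · exact h2.symm
        · show v 1 - a + a = v 1
          ring
        · rfl
      · rintro ⟨c, h1, rfl⟩
        refine ⟨?_, rfl⟩
        show (c.1 + a - a) ^ 2 + c.2 ^ 2 = 9
        rw [add_sub_cancel_right]
        exact h1
    · intro c hc h
      apply hdis _ h ⟨?_, rfl⟩
      show (c.1 + a - a) ^ 2 + c.2 ^ 2 = 9
      rw [add_sub_cancel_right]
      exact hc
    · refine ⟨(x.1 1 - a, x.1 2), hx.1, ?_⟩
      funext i
      fin_cases i
      · exact hx.2.symm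
      · show x.1 1 - a + a = x.1 1
        ring
      · rfl

/-- There are Hermitian matrices whose Clifford spectrum is a one-manifold. -/
theorem result : ∃ (n d k : ℕ) (γ : Fin d → Matrix (Fin k) (Fin k) ℂ)
    (A : Fin d → Matrix (Fin n) (Fin n) ℂ), 1 ≤ n ∧ 1 ≤ d ∧ IsClifford γ ∧
    (∀ j, (A j).IsHermitian) ∧ IsOneManifold (cliffordSpectrum γ A) := by
  obtain ⟨p, hp⟩ : ∃ p : ℝ, p ^ 2 = 150 := ⟨Real.sqrt 150, Real.sq_sqrt (by norm_num)⟩
  obtain ⟨q, hq⟩ : ∃ p : ℝ, p ^ 2 = 300 := ⟨Real.sqrt 300, Real.sq_sqrt (by norm_num)⟩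
  obtain ⟨a, ha⟩ : ∃ p : ℝ, p ^ 2 = 8 := ⟨Real.sqrt 8, Real.sq_sqrt (by norm_num)⟩
  have hα : (p : ℂ) ^ 2 = 150 := by exact_mod_cast congrArg (fun t : ℝ => (t : ℂ)) hp
  have hβ : (q : ℂ) ^ 2 = 300 := by exact_mod_cast congrArg (fun t : ℝ => (t : ℂ)) hq
  have hherm : ∀ j, (A4 p q j).IsHermitian := by
    intro j
    ext s t
    fin_cases j <;> fin_cases s <;> fin_cases t <;>
      simp [A4, Matrix.conjTranspose_apply] <;> ring
  have hherm2 : ∀ j, ((![A4 p q 2, A4 p q 0 + (a : ℂ) • 1, A4 p q 1] :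
      Fin 3 → Matrix (Fin 4) (Fin 4) ℂ) j).IsHermitian := by
    intro j
    fin_cases j
    · exact hherm 2
    · refine (hherm 0).add ?_
      unfold Matrix.IsHermitian
      rw [Matrix.conjTranspose_smul, Matrix.conjTranspose_one]
      simp
    · exact hherm 1
  refine ⟨8, 3, 2, pauli, fun j => (Matrix.fromBlocks (A4 p q j) 0 0
    ((![A4 p q 2, A4 p q 0 + (a : ℂ) • 1, A4 p q 1] :
      Fin 3 → Matrix (Fin 4) (Fin 4) ℂ) j)).submatrix (finSumFinEquiv (m := 4) (n := 4)).symm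
        (finSumFinEquiv (m := 4) (n := 4)).symm, by norm_num, by norm_num, pauli_clifford, ?_, ?_⟩
  · intro j
    apply Matrix.IsHermitian.submatrix
    apply Matrix.IsHermitian.fromBlocks (hherm j) _ (hherm2 j)
    simp
  · rw [spec_reindex pauli _ (finSumFinEquiv (m := 4) (n := 4)).symm, spec_sum]
    apply two_circles_manifold a _ _ ha
    intro v
    rw [Set.mem_union, spec_rot, spec_A4 _ _ hα hβ, spec_A4 _ _ hα hβ]
    have e0 : (![v 1 - a, v 2, v 0] : Fin 3 → ℝ) 0 = v 1 - a := rfl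
    have e1 : (![v 1 - a, v 2, v 0] : Fin 3 → ℝ) 1 = v 2 := rfl
    have e2 : (![v 1 - a, v 2, v 0] : Fin 3 → ℝ) 2 = v 0 := rfl
    rw [e0, e1, e2]
    constructor
    · rintro ((⟨h0, h1, h2⟩ | h) | (⟨h0, h1, h2⟩ | h))
      · right
        refine ⟨?_, h0⟩
        rw [h1, h2]
        linear_combination ha
      · left; exact h
      · left
        refine ⟨?_, h1⟩
        have : v 1 = a := by linarith
        rw [this, h2]
        linear_combination ha
      · right; exact h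
    · rintro (h | h)
      · left; right; exact h
      · right; right; exact h

end Pool.Agent.Results.MP_782c7c_an.TwoCircles
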